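import Mathlib
import Pool.Agent.H25.QSum

namespace Pool.Agent.Results.MP_7c66d8_nt.TwoN

open Finset

/-- `f n = ∑ k ≤ n, (n choose k) ^ 4`. -/
def f (n : ℕ) : ℤ := ∑ k ∈ range (n + 1), (n.choose k : ℤ) ^ 4

theorem result (n : ℕ) : 2 * (n : ℤ) ∣ ∑ k ∈ range n, (3 * k + 2) * f k := by
  refine (H25.QSum.two_n n 4 (by omega)).trans (dvd_of_eq (sum_congr rfl fun k _ => ?_))
  rw [pow_mul]
  simp [f]

end Pool.Agent.Results.MP_7c66d8_nt.TwoN
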